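import Pool.Agent.V11321.CP.Cap

/-!
The discrete capacities of order `1/3` of the lattice approximations of a closed set are, in the
limit, at most twice its Riesz capacity.
-/

set_option autoImplicit false

namespace Pool.Agent.V11321.CP

open MeasureTheory Finset Filter Topology

theorem rk_le_of {d e : ℝ} (h : d ≤ e) :
    (ENNReal.ofReal e) ^ (-(1/3) : ℝ) ≤ (ENNReal.ofReal d) ^ (-(1/3) : ℝ) := by
  rw [ENNReal.rpow_neg, ENNReal.rpow_neg, ENNReal.inv_le_inv]
  exact ENNReal.rpow_le_rpow (ENNReal.ofReal_le_ofReal h) (by norm_num)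

/-- the truncated kernel is dominated by the discrete one -/
theorem kern_ge {n : ℤ} (hn : 1 ≤ n) {m : ℕ} (hmn : (m:ℤ) ≤ n) {x y : ℤ} {s t : ℝ}
    (hs : |(x:ℝ) - n * s| ≤ 1) (ht : |(y:ℝ) - n * t| ≤ 1) :
    (ENNReal.ofReal (|s - t| + 1/((m:ℝ) + 1))) ^ (-(1/3) : ℝ) ≤
      ENNReal.ofReal (2 * (((n : ℝ) + 1) / (|(x : ℝ) - y| + 1)) ^ ((1 : ℝ) / 3)) := by
  have hn0 : (0:ℝ) < n := by exact_mod_cast hn
  have hm0 : (0:ℝ) ≤ m := Nat.cast_nonneg m
  have hmn' : (m:ℝ) ≤ n := by exact_mod_cast hmn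
  obtain ⟨d, hd⟩ : ∃ d : ℝ, d = |(x:ℝ) - y| := ⟨_, rfl⟩
  rw [← hd]
  have hd0 : 0 ≤ d := by rw [hd]; positivity
  have h1 : d ≤ n * |s - t| + 2 := by
    have e : (x:ℝ) - y = ((x:ℝ) - n * s) + (n * (s - t)) - ((y:ℝ) - n * t) := by ring
    have h2 : |(n:ℝ) * (s - t)| = n * |s - t| := by rw [abs_mul, abs_of_pos hn0]
    rw [hd, e]
    calc |((x:ℝ) - n * s) + (n * (s - t)) - ((y:ℝ) - n * t)| ≤
          |((x:ℝ) - n * s) + (n * (s - t))| + |(y:ℝ) - n * t| := abs_sub _ _
      _ ≤ (|(x:ℝ) - n * s| + |(n:ℝ) * (s - t)|) + |(y:ℝ) - n * t| := by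
          gcongr
          exact abs_add_le _ _
      _ ≤ _ := by rw [h2]; linarith
  have hst : 0 ≤ |s - t| := abs_nonneg _
  have key : (d + 1) / (8 * (n + 1)) ≤ |s - t| + 1/((m:ℝ) + 1) := by
    rcases le_total 3 d with h3 | h3
    · have h4 : (d + 1) / (8 * (n + 1)) ≤ |s - t| := by
        rw [div_le_iff₀ (by positivity)]
        nlinarith
      have : 0 ≤ 1/((m:ℝ) + 1) := by positivity
      linarith
    · have h4 : (d + 1) / (8 * (n + 1)) ≤ 1/((m:ℝ) + 1) := by
        rw [div_le_div_iff₀ (by positivity) (by positivity)]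
        nlinarith
      linarith
  refine (rk_le_of key).trans (le_of_eq ?_)
  rw [ENNReal.ofReal_rpow_of_pos (by positivity)]
  congr 1
  rw [Real.rpow_neg (by positivity), ← Real.inv_rpow (by positivity), inv_div]
  have e : (8 * ((n:ℝ) + 1)) / (d + 1) = 8 * (((n:ℝ) + 1) / (d + 1)) := by ring
  have e3 : (1/3 : ℝ) = (1:ℝ)/3 := rfl
  rw [e, Real.mul_rpow (by norm_num) (by positivity)]
  congr 1
  rw [show (8:ℝ) = 2^(3:ℝ) by norm_num, ← Real.rpow_mul (by norm_num)]
  norm_num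

/-- the truncated kernels as bounded continuous functions -/
noncomputable def Fm (K : Set ℝ) [CompactSpace K] (m : ℕ) :
    BoundedContinuousFunction (K × K) NNReal :=
  BoundedContinuousFunction.mkOfCompact
    ⟨fun q => Real.toNNReal ((|(q.1 : ℝ) - q.2| + 1/((m:ℝ) + 1)) ^ (-(1/3) : ℝ)), by
      apply continuous_real_toNNReal.comp
      apply Continuous.rpow_const
      · fun_prop
      · intro q
        left
        have : 0 < 1/((m:ℝ) + 1) := by positivity
        positivity⟩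

theorem Fm_eq (K : Set ℝ) [CompactSpace K] (m : ℕ) (q : K × K) :
    ((Fm K m q : NNReal) : ENNReal) =
      (ENNReal.ofReal (|(q.1 : ℝ) - q.2| + 1/((m:ℝ) + 1))) ^ (-(1/3) : ℝ) := by
  have : 0 < 1/((m:ℝ) + 1) := by positivity
  rw [ENNReal.ofReal_rpow_of_pos (by positivity)]
  rfl

theorem rk_tendsto (s t : ℝ) : Tendsto (fun m : ℕ =>
    (ENNReal.ofReal (|s - t| + 1/((m:ℝ) + 1))) ^ (-(1/3) : ℝ)) atTop (𝓝 (rk s t)) := by
  unfold rk
  have h1 : Tendsto (fun m : ℕ => |s - t| + 1/((m:ℝ) + 1)) atTop (𝓝 (|s - t| + 0)) :=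
    tendsto_const_nhds.add tendsto_one_div_add_atTop_nhds_zero_nat
  rw [add_zero] at h1
  exact (ENNReal.continuous_rpow_const.tendsto _).comp
    ((ENNReal.continuous_ofReal.tendsto _).comp h1)

theorem rk_meas : Measurable (fun q : ℝ × ℝ => rk q.1 q.2) := by
  unfold rk
  exact ENNReal.continuous_rpow_const.measurable.comp
    (ENNReal.measurable_ofReal.comp (by fun_prop))

/-- The energy of the limit. -/
theorem rEn_le {K : Set ℝ} [CompactSpace K] (μ : ProbabilityMeasure K) {B : ENNReal}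
    (h : ∀ m : ℕ, ∫⁻ q, (Fm K m q : ENNReal) ∂((μ.prod μ : ProbabilityMeasure (K × K)) :
      Measure (K × K)) ≤ B) :
    rEn ((μ : Measure K).map Subtype.val) ≤ B := by
  have hval : Measurable (Subtype.val : K → ℝ) := measurable_subtype_coe
  have e1 : rEn ((μ : Measure K).map Subtype.val) =
      ∫⁻ q : K × K, rk q.1 q.2 ∂((μ : Measure K).prod (μ : Measure K)) := by
    unfold rEn
    have : IsProbabilityMeasure ((μ : Measure K).map Subtype.val) :=
      Measure.isProbabilityMeasure_map hval.aemeasurable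
    rw [lintegral_map (rk_meas.lintegral_prod_right') hval]
    have e2 : ∀ s : K, ∫⁻ y, rk s y ∂((μ : Measure K).map Subtype.val) =
        ∫⁻ t : K, rk s t ∂(μ : Measure K) := by
      intro s
      exact lintegral_map (rk_meas.comp (by fun_prop : Measurable (fun y : ℝ => ((s:ℝ), y)))) hval
    simp_rw [e2]
    rw [lintegral_prod]
    exact (rk_meas.comp (by fun_prop : Measurable
      (fun q : K × K => ((q.1 : ℝ), (q.2 : ℝ))))).aemeasurable
  rw [e1]
  have h2 : Tendsto (fun m : ℕ => ∫⁻ q : K × K, (ENNReal.ofReal (|(q.1 : ℝ) - q.2| +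
      1/((m:ℝ) + 1))) ^ (-(1/3) : ℝ) ∂((μ : Measure K).prod (μ : Measure K))) atTop
      (𝓝 (∫⁻ q : K × K, rk q.1 q.2 ∂((μ : Measure K).prod (μ : Measure K)))) := by
    apply lintegral_tendsto_of_tendsto_of_monotone
    · intro m
      apply Measurable.aemeasurable
      exact ENNReal.continuous_rpow_const.measurable.comp
        (ENNReal.measurable_ofReal.comp (by fun_prop))
    · refine ae_of_all _ fun q => ?_
      intro m m' hmm
      apply rk_le_of
      have : 1/((m':ℝ) + 1) ≤ 1/((m:ℝ) + 1) := by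
        apply one_div_le_one_div_of_le (by positivity)
        have : (m:ℝ) ≤ m' := by exact_mod_cast hmm
        linarith
      linarith
    · exact ae_of_all _ fun q => rk_tendsto _ _
  refine le_of_tendsto' h2 fun m => ?_
  have h3 := h m
  simp_rw [Fm_eq] at h3
  exact h3

theorem ofReal_dsum (S : Finset ℤ) (v : ℤ → ℝ) (k : ℤ → ℤ → ℝ) (hv : ∀ x ∈ S, 0 ≤ v x)
    (hk : ∀ x y, 0 ≤ k x y) :
    ∑ x ∈ S, ENNReal.ofReal (v x) * ∑ y ∈ S, ENNReal.ofReal (v y) * ENNReal.ofReal (2 * k x y) =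
      ENNReal.ofReal (2 * ∑ x ∈ S, ∑ y ∈ S, v x * v y * k x y) := by
  have e1 : 2 * ∑ x ∈ S, ∑ y ∈ S, v x * v y * k x y =
      ∑ x ∈ S, ∑ y ∈ S, 2 * (v x * v y * k x y) := by
    rw [Finset.mul_sum]
    apply Finset.sum_congr rfl
    intro x _
    rw [Finset.mul_sum]
  rw [e1, ENNReal.ofReal_sum_of_nonneg (fun x hx => Finset.sum_nonneg fun y hy =>
    mul_nonneg (by norm_num) (mul_nonneg (mul_nonneg (hv x hx) (hv y hy)) (hk x y)))]
  apply Finset.sum_congr rfl
  intro x hx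
  rw [ENNReal.ofReal_sum_of_nonneg (fun y hy =>
    mul_nonneg (by norm_num) (mul_nonneg (mul_nonneg (hv x hx) (hv y hy)) (hk x y))),
    Finset.mul_sum]
  apply Finset.sum_congr rfl
  intro y hy
  rw [← ENNReal.ofReal_mul (hv y hy), ← ENNReal.ofReal_mul (hv x hx)]
  congr 1
  ring

theorem cap_upper {K : Set ℝ} (hKc : IsClosed K) (hK : K ⊆ Set.Icc 0 1) {ε : ℝ} (hε : 0 < ε) :
    ∃ N : ℤ, ∀ n : ℤ, N ≤ n → cp n (lat n K) ≤ 2 * (rCap K).toReal + ε := by
  classical
  by_contra hcon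
  push Not at hcon
  obtain ⟨β, hβ⟩ : ∃ β : ℝ, β = 2 * (rCap K).toReal + ε := ⟨_, rfl⟩
  rw [← hβ] at hcon
  have hR0 : 0 ≤ (rCap K).toReal := ENNReal.toReal_nonneg
  have hβ0 : 0 < β := by rw [hβ]; linarith
  have hKK : IsCompact K := (isCompact_Icc).of_isClosed_subset hKc hK
  have : CompactSpace K := isCompact_iff_compactSpace.1 hKK
  -- the sequence of weights
  have h1 : ∀ i : ℕ, ∃ (n : ℤ) (v : ℤ → ℝ), (i:ℤ) + 1 ≤ n ∧ (∀ x ∈ lat n K, 0 ≤ v x) ∧
      ∑ x ∈ lat n K, v x = 1 ∧ β < 1 / en n (lat n K) v := by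
    intro i
    obtain ⟨n, hn, hcp⟩ := hcon ((i:ℤ) + 1)
    have hne : {r | ∃ v : ℤ → ℝ, (∀ x ∈ lat n K, 0 ≤ v x) ∧ ∑ x ∈ lat n K, v x = 1 ∧
        r = 1 / en n (lat n K) v}.Nonempty := by
      by_contra hempty
      rw [Set.not_nonempty_iff_eq_empty] at hempty
      unfold cp at hcp
      rw [hempty, Real.sSup_empty] at hcp
      linarith
    obtain ⟨r, ⟨v, hv1, hv2, rfl⟩, hr⟩ := exists_lt_of_lt_csSup hne hcp
    exact ⟨n, v, hn, hv1, hv2, hr⟩
  choose n v hn hv0 hv1 hen using h1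
  -- nearest points
  have hne : ∀ i : ℕ, (lat (n i) K).Nonempty := by
    intro i
    by_contra h
    rw [Finset.not_nonempty_iff_eq_empty] at h
    have := hv1 i
    rw [h, Finset.sum_empty] at this
    exact zero_ne_one this
  obtain ⟨x0, hx0⟩ := hne 0
  obtain ⟨t0, ht0, -⟩ := (mem_lat.1 hx0).2
  have hπ : ∀ i : ℕ, ∀ x : ℤ, ∃ t : K, x ∈ lat (n i) K → |(x:ℝ) - n i * (t:ℝ)| ≤ 1 := by
    intro i x
    by_cases hx : x ∈ lat (n i) K
    · obtain ⟨t, ht, h2⟩ := (mem_lat.1 hx).2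
      exact ⟨⟨t, ht⟩, fun _ => h2⟩
    · exact ⟨⟨t0, ht0⟩, fun h => absurd h hx⟩
  choose π hπ' using hπ
  -- the measures
  obtain ⟨μm, hμm⟩ : ∃ μm : ℕ → Measure K, μm = fun i => ∑ x ∈ lat (n i) K,
      ENNReal.ofReal (v i x) • Measure.dirac (π i x) := ⟨_, rfl⟩
  have hlin : ∀ i : ℕ, ∀ g : K → ENNReal, Measurable g → ∫⁻ t, g t ∂(μm i) =
      ∑ x ∈ lat (n i) K, ENNReal.ofReal (v i x) * g (π i x) := by
    intro i g hg
    rw [hμm]
    simp only
    rw [lintegral_finsetSum_measure]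
    apply Finset.sum_congr rfl
    intro x _
    rw [lintegral_smul_measure, lintegral_dirac' _ hg, smul_eq_mul]
  have hprob : ∀ i : ℕ, IsProbabilityMeasure (μm i) := by
    intro i
    constructor
    have h2 := hlin i (fun _ => 1) measurable_const
    rw [lintegral_const, one_mul] at h2
    rw [h2]
    simp only [mul_one]
    rw [← ENNReal.ofReal_sum_of_nonneg (hv0 i), hv1 i, ENNReal.ofReal_one]
  obtain ⟨μ, hμ⟩ : ∃ μ : ℕ → ProbabilityMeasure K, μ = fun i => ⟨μm i, hprob i⟩ := ⟨_, rfl⟩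
  -- a limit point
  obtain ⟨ν, -, hν⟩ := (isCompact_univ (X := ProbabilityMeasure K)).ultrafilter_le_nhds
    ((hyperfilter ℕ).map μ) (by simp)
  have hν' : Tendsto μ (hyperfilter ℕ : Filter ℕ) (𝓝 ν) := hν
  have hprod : Tendsto (fun i => (μ i).prod (μ i)) (hyperfilter ℕ : Filter ℕ) (𝓝 (ν.prod ν)) :=
    (ProbabilityMeasure.continuous_prod.tendsto (ν, ν)).comp (hν'.prodMk_nhds hν')
  have hB : ∀ m : ℕ, ∫⁻ q, (Fm K m q : ENNReal) ∂((ν.prod ν : ProbabilityMeasure (K × K)) :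
      Measure (K × K)) ≤ ENNReal.ofReal (2 / β) := by
    intro m
    have h3 := (ProbabilityMeasure.tendsto_iff_forall_lintegral_tendsto.1 hprod) (Fm K m)
    refine le_of_tendsto h3 ?_
    have h4 : ∀ᶠ i : ℕ in (hyperfilter ℕ : Filter ℕ), m ≤ i := by
      have h5 : (hyperfilter ℕ : Filter ℕ) ≤ atTop := by
        rw [← Nat.cofinite_eq_atTop]
        exact hyperfilter_le_cofinite
      exact h5 (eventually_ge_atTop m)
    filter_upwards [h4] with i hi
    have hmi : (m:ℤ) ≤ n i := by have := hn i; omega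
    have h5 : ∫⁻ q, (Fm K m q : ENNReal) ∂(((μ i).prod (μ i) : ProbabilityMeasure (K × K)) :
        Measure (K × K)) = ∫⁻ q : K × K, (Fm K m q : ENNReal) ∂((μm i).prod (μm i)) := by
      rw [hμ]
      rfl
    have hFm : Measurable (fun q : K × K => (Fm K m q : ENNReal)) :=
      measurable_coe_nnreal_ennreal.comp (Fm K m).continuous.measurable
    have := hprob i
    rw [h5, lintegral_prod _ hFm.aemeasurable, hlin i _ hFm.lintegral_prod_right']
    have h6 : ∀ x : ℤ, ∫⁻ t, (Fm K m (π i x, t) : ENNReal) ∂(μm i) =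
        ∑ y ∈ lat (n i) K, ENNReal.ofReal (v i y) * (Fm K m (π i x, π i y) : ENNReal) := by
      intro x
      exact hlin i _ (hFm.comp (by fun_prop : Measurable (fun t : K => (π i x, t))))
    simp_rw [h6]
    have hen1 := en_ge lat_range (hv0 i) (hv1 i)
    calc ∑ x ∈ lat (n i) K, ENNReal.ofReal (v i x) * ∑ y ∈ lat (n i) K,
          ENNReal.ofReal (v i y) * (Fm K m (π i x, π i y) : ENNReal)
        ≤ ∑ x ∈ lat (n i) K, ENNReal.ofReal (v i x) * ∑ y ∈ lat (n i) K,
          ENNReal.ofReal (v i y) * ENNReal.ofReal (2 * (((n i : ℝ) + 1) /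
            (|(x : ℝ) - y| + 1)) ^ ((1 : ℝ) / 3)) := by
          gcongr with x hx y hy
          rw [Fm_eq]
          exact kern_ge (by have := hn i; omega) hmi (hπ' i x hx) (hπ' i y hy)
      _ = ENNReal.ofReal (2 * en (n i) (lat (n i) K) (v i)) :=
          ofReal_dsum (lat (n i) K) (v i) _ (hv0 i) (fun x y => by
            have h7 : (0:ℝ) ≤ n i := by exact_mod_cast (by have := hn i; omega : 0 ≤ n i)
            positivity)
      _ ≤ ENNReal.ofReal (2 / β) := by
          apply ENNReal.ofReal_le_ofReal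
          have h7 := hen i
          rw [lt_div_iff₀ (by linarith)] at h7
          rw [le_div_iff₀ hβ0]
          linarith
  have h8 := rEn_le ν hB
  have hval : Measurable (Subtype.val : K → ℝ) := measurable_subtype_coe
  have : IsProbabilityMeasure ((ν : Measure K).map Subtype.val) :=
    Measure.isProbabilityMeasure_map hval.aemeasurable
  have h9 : ((ν : Measure K).map Subtype.val) Kᶜ = 0 := by
    rw [Measure.map_apply hval hKc.measurableSet.compl]
    have : (Subtype.val : K → ℝ) ⁻¹' Kᶜ = ∅ := by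
      ext t
      simp
    rw [this, measure_empty]
  have h10 : (rEn ((ν : Measure K).map Subtype.val))⁻¹ ≤ rCap K := by
    unfold rCap
    exact le_iSup_of_le _ (le_iSup_of_le inferInstance (le_iSup_of_le h9 le_rfl))
  have h11 : ENNReal.ofReal (β / 2) ≤ rCap K := by
    calc ENNReal.ofReal (β / 2) = (ENNReal.ofReal (2 / β))⁻¹ := by
          rw [← ENNReal.ofReal_inv_of_pos (by positivity), inv_div]
      _ ≤ (rEn ((ν : Measure K).map Subtype.val))⁻¹ := ENNReal.inv_le_inv.2 h8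
      _ ≤ _ := h10
  have h12 : rCap K ≠ ⊤ := by
    have := cap_lower (n := 1) le_rfl hK
    exact ne_top_of_le_ne_top ENNReal.ofReal_ne_top this
  have h13 : β / 2 ≤ (rCap K).toReal := by
    rw [← ENNReal.ofReal_le_iff_le_toReal h12]
    exact h11
  rw [hβ] at h13
  linarith

end Pool.Agent.V11321.CP
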