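import Mathlib

/-!
The discrete capacities of order `1/3` of the lattice approximations of a closed set and its
Riesz capacity.
-/

set_option autoImplicit false

namespace Pool.Agent.V11321.CP

open MeasureTheory Finset Filter

/-- discrete energy -/
noncomputable def en (h : ℤ) (S : Finset ℤ) (v : ℤ → ℝ) : ℝ :=
  ∑ x ∈ S, ∑ y ∈ S, v x * v y * (((h : ℝ) + 1) / (|(x : ℝ) - y| + 1)) ^ ((1 : ℝ) / 3)

/-- discrete capacity -/
noncomputable def cp (h : ℤ) (S : Finset ℤ) : ℝ :=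
  sSup {r | ∃ v : ℤ → ℝ, (∀ x ∈ S, 0 ≤ v x) ∧ ∑ x ∈ S, v x = 1 ∧ r = 1 / en h S v}

/-- the Riesz kernel of order `1/3` -/
noncomputable def rk (x y : ℝ) : ENNReal := (ENNReal.ofReal |x - y|) ^ (-(1/3) : ℝ)

/-- the Riesz energy -/
noncomputable def rEn (ν : Measure ℝ) : ENNReal := ∫⁻ x, ∫⁻ y, rk x y ∂ν ∂ν

/-- the Riesz capacity -/
noncomputable def rCap (K : Set ℝ) : ENNReal :=
  ⨆ (ν : Measure ℝ) (_ : IsProbabilityMeasure ν) (_ : ν Kᶜ = 0), (rEn ν)⁻¹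

open Classical in
/-- the lattice approximation of `K` at the mesh `1 / n` -/
noncomputable def lat (n : ℤ) (K : Set ℝ) : Finset ℤ :=
  (Finset.Icc 0 n).filter (fun x => ∃ t ∈ K, |(x:ℝ) - n * t| ≤ 1)

theorem mem_lat {n : ℤ} {K : Set ℝ} {x : ℤ} :
    x ∈ lat n K ↔ (0 ≤ x ∧ x ≤ n) ∧ ∃ t ∈ K, |(x:ℝ) - n * t| ≤ 1 := by
  simp only [lat, Finset.mem_filter, Finset.mem_Icc]

theorem cast_abs {n x y : ℤ} (hx : 0 ≤ x ∧ x ≤ n) (hy : 0 ≤ y ∧ y ≤ n) :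
    |(x:ℝ) - y| ≤ n := by
  have h1 : (0:ℝ) ≤ x := by exact_mod_cast hx.1
  have h2 : (x:ℝ) ≤ n := by exact_mod_cast hx.2
  have h3 : (0:ℝ) ≤ y := by exact_mod_cast hy.1
  have h4 : (y:ℝ) ≤ n := by exact_mod_cast hy.2
  rw [abs_le]
  constructor <;> linarith

theorem kk_ge {n x y : ℤ} (hx : 0 ≤ x ∧ x ≤ n) (hy : 0 ≤ y ∧ y ≤ n) :
    1 ≤ (((n : ℝ) + 1) / (|(x : ℝ) - y| + 1)) ^ ((1 : ℝ) / 3) := by
  apply Real.one_le_rpow _ (by norm_num)
  have := cast_abs hx hy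
  rw [le_div_iff₀ (by positivity)]
  linarith

theorem en_ge {n : ℤ} {S : Finset ℤ} (hS : ∀ x ∈ S, 0 ≤ x ∧ x ≤ n) {v : ℤ → ℝ}
    (hv : ∀ x ∈ S, 0 ≤ v x) (h1 : ∑ x ∈ S, v x = 1) : 1 ≤ en n S v := by
  have e : (1:ℝ) = ∑ x ∈ S, ∑ y ∈ S, v x * v y * 1 := by
    have : ∑ x ∈ S, ∑ y ∈ S, v x * v y * 1 = (∑ x ∈ S, v x) * (∑ y ∈ S, v y) := by
      rw [Finset.sum_mul_sum]
      simp
    rw [this, h1, one_mul]
  rw [e]
  unfold en
  apply Finset.sum_le_sum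
  intro x hx
  apply Finset.sum_le_sum
  intro y hy
  exact mul_le_mul_of_nonneg_left (kk_ge (hS x hx) (hS y hy)) (mul_nonneg (hv x hx) (hv y hy))

theorem cp_bdd {n : ℤ} {S : Finset ℤ} (hS : ∀ x ∈ S, 0 ≤ x ∧ x ≤ n) :
    BddAbove {r | ∃ v : ℤ → ℝ, (∀ x ∈ S, 0 ≤ v x) ∧ ∑ x ∈ S, v x = 1 ∧ r = 1 / en n S v} := by
  refine ⟨1, ?_⟩
  rintro r ⟨v, h1, h2, rfl⟩
  have := en_ge hS h1 h2
  rw [div_le_one (by linarith)]
  exact this

theorem lat_range {n : ℤ} {K : Set ℝ} : ∀ x ∈ lat n K, 0 ≤ x ∧ x ≤ n := fun _ hx => (mem_lat.1 hx).1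

/-! ### the lower bound -/

theorem meas_fl (n x : ℤ) : MeasurableSet {t : ℝ | ⌊(n:ℝ) * t⌋ = x} := by
  have h1 : Measurable (fun t : ℝ => ⌊(n:ℝ) * t⌋) := Int.measurable_floor.comp (by fun_prop)
  exact h1 (MeasurableSet.singleton x)

theorem kern_le {n : ℤ} (hn : 1 ≤ n) {x y : ℤ} {s t : ℝ} (hs : ⌊(n:ℝ) * s⌋ = x)
    (ht : ⌊(n:ℝ) * t⌋ = y) :
    ENNReal.ofReal ((((n : ℝ) + 1) / (|(x : ℝ) - y| + 1)) ^ ((1 : ℝ) / 3)) ≤ 2 * rk s t := by
  have hn0 : (0:ℝ) < n := by exact_mod_cast hn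
  have hn1 : (1:ℝ) ≤ n := by exact_mod_cast hn
  have s1 := Int.floor_le ((n:ℝ) * s)
  have s2 := Int.lt_floor_add_one ((n:ℝ) * s)
  have t1 := Int.floor_le ((n:ℝ) * t)
  have t2 := Int.lt_floor_add_one ((n:ℝ) * t)
  rw [hs] at s1 s2
  rw [ht] at t1 t2
  have hd : |s - t| ≤ (|(x:ℝ) - y| + 1) / n := by
    rw [le_div_iff₀ hn0]
    have e : |s - t| * n = |n * s - n * t| := by
      rw [← mul_sub, abs_mul, abs_of_pos hn0, mul_comm]
    rw [e, abs_le]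
    have h3 := neg_abs_le ((x:ℝ) - y)
    have h4 := le_abs_self ((x:ℝ) - y)
    constructor <;> linarith
  have hd0 : (0:ℝ) < |(x:ℝ) - y| + 1 := by positivity
  have h1 : ((((n : ℝ) + 1) / (|(x : ℝ) - y| + 1)) ^ ((1 : ℝ) / 3)) ≤
      2 * ((|(x:ℝ) - y| + 1) / n) ^ (-(1/3) : ℝ) := by
    have e1 : ((|(x:ℝ) - y| + 1) / n) ^ (-(1/3) : ℝ) = ((n:ℝ) / (|(x:ℝ) - y| + 1)) ^ ((1:ℝ)/3) := by
      rw [Real.rpow_neg (by positivity), ← Real.inv_rpow (by positivity), inv_div]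
    rw [e1]
    calc (((n : ℝ) + 1) / (|(x : ℝ) - y| + 1)) ^ ((1 : ℝ) / 3) ≤
          (8 * ((n:ℝ) / (|(x:ℝ) - y| + 1))) ^ ((1 : ℝ) / 3) := by
          apply Real.rpow_le_rpow (by positivity) _ (by norm_num)
          rw [← mul_div_assoc]
          apply div_le_div_of_nonneg_right _ hd0.le
          linarith
      _ = 2 * ((n:ℝ) / (|(x:ℝ) - y| + 1)) ^ ((1:ℝ)/3) := by
          rw [Real.mul_rpow (by norm_num) (by positivity)]
          congr 1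
          rw [show (8:ℝ) = 2^(3:ℝ) by norm_num, ← Real.rpow_mul (by norm_num)]
          norm_num
  have h2 : ENNReal.ofReal (((|(x:ℝ) - y| + 1) / n) ^ (-(1/3) : ℝ)) ≤ rk s t := by
    unfold rk
    rw [← ENNReal.ofReal_rpow_of_pos (by positivity)]
    rw [ENNReal.rpow_neg, ENNReal.rpow_neg, ENNReal.inv_le_inv]
    exact ENNReal.rpow_le_rpow (ENNReal.ofReal_le_ofReal hd) (by norm_num)
  calc _ ≤ ENNReal.ofReal (2 * ((|(x:ℝ) - y| + 1) / n) ^ (-(1/3) : ℝ)) :=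
        ENNReal.ofReal_le_ofReal h1
    _ = 2 * ENNReal.ofReal (((|(x:ℝ) - y| + 1) / n) ^ (-(1/3) : ℝ)) := by
        rw [ENNReal.ofReal_mul (by norm_num)]
        norm_num
    _ ≤ _ := by gcongr

theorem cap_lower {n : ℤ} (hn : 1 ≤ n) {K : Set ℝ} (hK : K ⊆ Set.Icc 0 1) :
    rCap K ≤ ENNReal.ofReal (2 * cp n (lat n K)) := by
  classical
  unfold rCap
  refine iSup_le fun ν => iSup_le fun hν => iSup_le fun hνK => ?_
  have hn0 : (0:ℝ) < n := by exact_mod_cast hn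
  obtain ⟨S, hS⟩ : ∃ S : Finset ℤ, S = lat n K := ⟨_, rfl⟩
  rw [← hS]
  obtain ⟨A, hA⟩ : ∃ A : ℤ → Set ℝ, A = fun x => {t : ℝ | ⌊(n:ℝ) * t⌋ = x} := ⟨_, rfl⟩
  have hAm : ∀ x, MeasurableSet (A x) := by
    intro x; rw [hA]; exact meas_fl n x
  have hAd : Set.PairwiseDisjoint (↑S) A := by
    intro x _ y _ hxy
    rw [Function.onFun, Set.disjoint_left]
    intro t h1 h2
    rw [hA] at h1 h2
    exact hxy (h1.symm.trans h2)
  have hcov : K ⊆ ⋃ x ∈ S, A x := by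
    intro t ht
    have h01 := hK ht
    rw [Set.mem_iUnion₂]
    refine ⟨⌊(n:ℝ) * t⌋, ?_, by rw [hA]; rfl⟩
    rw [hS, mem_lat]
    have k1 := Int.floor_le ((n:ℝ) * t)
    have k2 := Int.lt_floor_add_one ((n:ℝ) * t)
    refine ⟨⟨Int.floor_nonneg.2 (mul_nonneg hn0.le h01.1), ?_⟩, t, ht, ?_⟩
    · have : (⌊(n:ℝ) * t⌋ : ℝ) ≤ n := by nlinarith [h01.2]
      exact_mod_cast this
    · rw [abs_le]; constructor <;> linarith
  have hone : ν (⋃ x ∈ S, A x) = 1 := by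
    apply le_antisymm prob_le_one
    have h1 : (1:ENNReal) = ν Set.univ := (measure_univ).symm
    rw [h1]
    calc ν Set.univ ≤ ν ((⋃ x ∈ S, A x) ∪ Kᶜ) := by
          apply measure_mono
          intro t _
          by_cases ht : t ∈ K
          · exact Or.inl (hcov ht)
          · exact Or.inr ht
      _ ≤ ν (⋃ x ∈ S, A x) + ν Kᶜ := measure_union_le _ _
      _ = ν (⋃ x ∈ S, A x) := by rw [hνK, add_zero]
  have hsum : ∑ x ∈ S, ν (A x) = 1 := by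
    rw [← measure_biUnion_finset hAd (fun x _ => hAm x)]
    exact hone
  obtain ⟨v, hv⟩ : ∃ v : ℤ → ℝ, v = fun x => (ν (A x)).toReal := ⟨_, rfl⟩
  have hv0 : ∀ x, 0 ≤ v x := by intro x; rw [hv]; exact ENNReal.toReal_nonneg
  have hvE : ∀ x, ENNReal.ofReal (v x) = ν (A x) := by
    intro x; rw [hv]; exact ENNReal.ofReal_toReal (measure_ne_top _ _)
  have hv1 : ∑ x ∈ S, v x = 1 := by
    have : ENNReal.ofReal (∑ x ∈ S, v x) = ENNReal.ofReal 1 := by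
      rw [ENNReal.ofReal_sum_of_nonneg (fun x _ => hv0 x), ENNReal.ofReal_one, ← hsum]
      exact Finset.sum_congr rfl fun x _ => hvE x
    exact (ENNReal.ofReal_eq_ofReal_iff (Finset.sum_nonneg fun x _ => hv0 x) zero_le_one).1 this
  have hSr : ∀ x ∈ S, 0 ≤ x ∧ x ≤ n := by rw [hS]; exact lat_range
  have hen := en_ge hSr (fun x _ => hv0 x) hv1
  have hk0 : ∀ x y : ℤ, 0 ≤ (((n : ℝ) + 1) / (|(x : ℝ) - y| + 1)) ^ ((1 : ℝ) / 3) := by
    intro x y; positivity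
  have hle : ENNReal.ofReal (en n S v) ≤ 2 * rEn ν := by
    have e1 : ENNReal.ofReal (en n S v) = ∑ x ∈ S, ∑ y ∈ S, ν (A x) * (ν (A y) *
        ENNReal.ofReal ((((n : ℝ) + 1) / (|(x : ℝ) - y| + 1)) ^ ((1 : ℝ) / 3))) := by
      unfold en
      rw [ENNReal.ofReal_sum_of_nonneg (fun x _ => Finset.sum_nonneg fun y _ =>
        mul_nonneg (mul_nonneg (hv0 x) (hv0 y)) (hk0 x y))]
      apply Finset.sum_congr rfl
      intro x _
      rw [ENNReal.ofReal_sum_of_nonneg (fun y _ => mul_nonneg (mul_nonneg (hv0 x) (hv0 y))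
        (hk0 x y))]
      apply Finset.sum_congr rfl
      intro y _
      rw [ENNReal.ofReal_mul (mul_nonneg (hv0 x) (hv0 y)), ENNReal.ofReal_mul (hv0 x), hvE, hvE,
        mul_assoc]
    have e2 : ∀ x ∈ S, ∑ y ∈ S, ν (A x) * (ν (A y) *
        ENNReal.ofReal ((((n : ℝ) + 1) / (|(x : ℝ) - y| + 1)) ^ ((1 : ℝ) / 3))) ≤
        ∫⁻ s in A x, ∫⁻ t, 2 * rk s t ∂ν ∂ν := by
      intro x hx
      rw [← Finset.mul_sum]
      calc ν (A x) * ∑ y ∈ S, (ν (A y) *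
            ENNReal.ofReal ((((n : ℝ) + 1) / (|(x : ℝ) - y| + 1)) ^ ((1 : ℝ) / 3)))
          = ∫⁻ s in A x, (∑ y ∈ S, (ν (A y) *
            ENNReal.ofReal ((((n : ℝ) + 1) / (|(x : ℝ) - y| + 1)) ^ ((1 : ℝ) / 3)))) ∂ν := by
            rw [setLIntegral_const, mul_comm]
        _ ≤ ∫⁻ s in A x, ∫⁻ t, 2 * rk s t ∂ν ∂ν := by
            apply setLIntegral_mono' (hAm x)
            intro s hs
            calc ∑ y ∈ S, (ν (A y) *
                  ENNReal.ofReal ((((n : ℝ) + 1) / (|(x : ℝ) - y| + 1)) ^ ((1 : ℝ) / 3)))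
                ≤ ∑ y ∈ S, ∫⁻ t in A y, 2 * rk s t ∂ν := by
                  apply Finset.sum_le_sum
                  intro y _
                  rw [mul_comm, ← setLIntegral_const]
                  apply setLIntegral_mono' (hAm y)
                  intro t ht
                  rw [hA] at hs ht
                  exact kern_le hn hs ht
              _ = ∫⁻ t in ⋃ y ∈ S, A y, 2 * rk s t ∂ν :=
                  (lintegral_biUnion_finset hAd (fun y _ => hAm y) _).symm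
              _ ≤ _ := setLIntegral_le_lintegral _ _
    rw [e1]
    calc _ ≤ ∑ x ∈ S, ∫⁻ s in A x, ∫⁻ t, 2 * rk s t ∂ν ∂ν := Finset.sum_le_sum e2
      _ = ∫⁻ s in ⋃ x ∈ S, A x, ∫⁻ t, 2 * rk s t ∂ν ∂ν :=
          (lintegral_biUnion_finset hAd (fun y _ => hAm y) _).symm
      _ ≤ ∫⁻ s, ∫⁻ t, 2 * rk s t ∂ν ∂ν := setLIntegral_le_lintegral _ _
      _ = 2 * rEn ν := by
          unfold rEn
          simp_rw [lintegral_const_mul' 2 _ (by norm_num)]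
  have hmem : 1 / en n S v ≤ cp n S := by
    apply le_csSup (cp_bdd hSr)
    exact ⟨v, fun x _ => hv0 x, hv1, rfl⟩
  calc (rEn ν)⁻¹ = 2 * (2 * rEn ν)⁻¹ := by
        rw [ENNReal.mul_inv (by simp) (by simp), ← mul_assoc, ENNReal.mul_inv_cancel (by simp)
          (by simp), one_mul]
    _ ≤ 2 * (ENNReal.ofReal (en n S v))⁻¹ := by
        gcongr
    _ = ENNReal.ofReal (2 * (1 / en n S v)) := by
        rw [ENNReal.ofReal_mul (by norm_num), one_div, ENNReal.ofReal_inv_of_pos (by linarith)]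
        norm_num
    _ ≤ _ := ENNReal.ofReal_le_ofReal (by linarith)

end Pool.Agent.V11321.CP
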